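import Mathlib
import Pool.Agent.Helper95.Densities

/-!
Answer to Q1 of MP_1da4e9_nt (negative, for each of the three ground sets).
-/

open Pool.Agent.Helper95.Densities

namespace Pool.Agent.Results.MP_1da4e9_nt.LowerDensityNotHomogeneous

/-- A set consisting of very long blocks `[(2n)!, (2n+1)!]`. -/
def X : Set ℤ :=
  {x : ℤ | ∃ n : ℕ, ((2 * n).factorial : ℤ) ≤ x ∧ x ≤ ((2 * n + 1).factorial : ℤ)}

/-- Basic sets: everything for `k < 2`, the complement of `k·X` for `k ≥ 2`. -/
def T (k : ℕ) : Set ℤ := {z : ℤ | 2 ≤ k → ∀ x ∈ X, z ≠ (k : ℤ) * x}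

/-- Weight factor of a basic set. -/
noncomputable def w (k : ℕ) : ℝ := if 2 ≤ k then 1 - 1 / (k : ℝ) else 1

/-- The member set coded by `(k, a, h)`: the set `a·T k + h`. -/
def mset (m : ℕ × ℕ × ℤ) : Set ℤ := affine (m.2.1 : ℤ) m.2.2 (T m.1)

/-- The weight of a member. -/
noncomputable def wt (m : ℕ × ℕ × ℤ) : ℝ := w m.1 / (m.2.1 : ℝ)

/-- union of a list of members -/
def cover (l : List (ℕ × ℕ × ℤ)) : Set ℤ := {y : ℤ | ∃ m ∈ l, y ∈ mset m}

/-- total weight -/
noncomputable def weight (l : List (ℕ × ℕ × ℤ)) : ℝ := (l.map wt).sum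

/-- all dilation factors are positive -/
def Good (l : List (ℕ × ℕ × ℤ)) : Prop := ∀ m ∈ l, 0 < m.2.1

/-- The upper density: infimum of the weights of covers. -/
noncomputable def mu (S : Set ℤ) : ℝ :=
  sInf {r : ℝ | ∃ l : List (ℕ × ℕ × ℤ), Good l ∧ S ⊆ cover l ∧ weight l = r}

lemma w_le_one (k : ℕ) : w k ≤ 1 := by
  unfold w
  split_ifs with h
  · have : (0 : ℝ) ≤ 1 / (k : ℝ) := by positivity
    linarith
  · exact le_rfl

lemma half_le_w (k : ℕ) : 1 / 2 ≤ w k := by
  unfold w
  split_ifs with h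
  · have h2 : (2 : ℝ) ≤ (k : ℝ) := by exact_mod_cast h
    have : 1 / (k : ℝ) ≤ 1 / 2 := one_div_le_one_div_of_le (by norm_num) h2
    linarith
  · norm_num

lemma w_nonneg (k : ℕ) : 0 ≤ w k := by
  have := half_le_w k
  linarith

lemma wt_nonneg (m : ℕ × ℕ × ℤ) : 0 ≤ wt m :=
  div_nonneg (w_nonneg _) (Nat.cast_nonneg _)

lemma weight_nonneg (l : List (ℕ × ℕ × ℤ)) : 0 ≤ weight l := by
  unfold weight
  apply List.sum_nonneg
  intro x hx
  obtain ⟨m, -, rfl⟩ := List.mem_map.1 hx
  exact wt_nonneg m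

lemma weight_append (l l' : List (ℕ × ℕ × ℤ)) : weight (l ++ l') = weight l + weight l' := by
  simp [weight]

lemma weight_cons (m : ℕ × ℕ × ℤ) (l : List (ℕ × ℕ × ℤ)) :
    weight (m :: l) = wt m + weight l := by
  simp [weight]

lemma bddBelow (S : Set ℤ) :
    BddBelow {r : ℝ | ∃ l : List (ℕ × ℕ × ℤ), Good l ∧ S ⊆ cover l ∧ weight l = r} := by
  refine ⟨0, ?_⟩
  rintro r ⟨l, -, -, rfl⟩
  exact weight_nonneg l

lemma univ_cover : (Set.univ : Set ℤ) ⊆ cover [(0, 1, 0)] := by
  intro y _
  refine ⟨(0, 1, 0), by simp, ?_⟩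
  refine ⟨y, ?_, by simp⟩
  intro h
  simp at h

lemma weight_univ : weight [(0, 1, 0)] = 1 := by
  simp [weight, wt, w]

lemma nonempty (S : Set ℤ) :
    {r : ℝ | ∃ l : List (ℕ × ℕ × ℤ), Good l ∧ S ⊆ cover l ∧ weight l = r}.Nonempty := by
  refine ⟨1, [(0, 1, 0)], ?_, ?_, weight_univ⟩
  · intro m hm
    simp at hm
    simp [hm]
  · exact (Set.subset_univ S).trans univ_cover

lemma mu_le {S : Set ℤ} {l : List (ℕ × ℕ × ℤ)} (hl : Good l) (hS : S ⊆ cover l) :
    mu S ≤ weight l :=
  csInf_le (bddBelow S) ⟨l, hl, hS, rfl⟩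

lemma le_mu {S : Set ℤ} {c : ℝ}
    (h : ∀ l : List (ℕ × ℕ × ℤ), Good l → S ⊆ cover l → c ≤ weight l) : c ≤ mu S := by
  apply le_csInf (nonempty S)
  rintro r ⟨l, hl, hS, rfl⟩
  exact h l hl hS

lemma mu_le_one (S : Set ℤ) : mu S ≤ 1 := by
  have h := mu_le (S := S) (l := [(0, 1, 0)]) (by
    intro m hm
    simp at hm
    simp [hm]) ((Set.subset_univ S).trans univ_cover)
  rwa [weight_univ] at h

lemma mu_mono {S S' : Set ℤ} (h : S ⊆ S') : mu S ≤ mu S' :=
  le_mu fun _ hl hS => mu_le hl (h.trans hS)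

lemma mu_union (S S' : Set ℤ) : mu (S ∪ S') ≤ mu S + mu S' := by
  have key : ∀ l : List (ℕ × ℕ × ℤ), Good l → S ⊆ cover l → mu (S ∪ S') - mu S' ≤ weight l := by
    intro l hl hS
    have : mu (S ∪ S') - weight l ≤ mu S' := by
      apply le_mu
      intro l' hl' hS'
      have h1 : mu (S ∪ S') ≤ weight (l ++ l') := by
        apply mu_le
        · intro m hm
          rcases List.mem_append.1 hm with h | h
          · exact hl m h
          · exact hl' m h
        · rintro y (hy | hy)
          · obtain ⟨m, hm, hy⟩ := hS hy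
            exact ⟨m, List.mem_append_left _ hm, hy⟩
          · obtain ⟨m, hm, hy⟩ := hS' hy
            exact ⟨m, List.mem_append_right _ hm, hy⟩
      rw [weight_append] at h1
      linarith
    linarith
  have := le_mu key
  linarith

lemma mu_affine_le (S : Set ℤ) (c : ℕ) (hc : 0 < c) (h : ℤ) :
    (c : ℝ) * mu (affine (c : ℤ) h S) ≤ mu S := by
  have hc' : (0 : ℝ) < c := by exact_mod_cast hc
  apply le_mu
  intro l hl hS
  have h1 : mu (affine (c : ℤ) h S) ≤
      weight (l.map fun m => (m.1, c * m.2.1, (c : ℤ) * m.2.2 + h)) := by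
    apply mu_le
    · intro m hm
      obtain ⟨m', hm', rfl⟩ := List.mem_map.1 hm
      exact Nat.mul_pos hc (hl m' hm')
    · rintro y ⟨x, hx, rfl⟩
      obtain ⟨m, hm, z, hz, rfl⟩ := hS hx
      refine ⟨_, List.mem_map.2 ⟨m, hm, rfl⟩, z, hz, ?_⟩
      push_cast
      ring
  have h2 : weight (l.map fun m => (m.1, c * m.2.1, (c : ℤ) * m.2.2 + h)) = weight l / c := by
    clear h1 hS hl
    induction l with
    | nil => simp [weight]
    | cons m l ih =>
      rw [List.map_cons, weight_cons, ih, weight_cons]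
      unfold wt
      push_cast
      field_simp
  rw [h2] at h1
  calc (c : ℝ) * mu (affine (c : ℤ) h S) ≤ c * (weight l / c) :=
        mul_le_mul_of_nonneg_left h1 hc'.le
    _ = weight l := by field_simp

/-- Preimages of members are covered by one member (or empty). -/
lemma preimage_member (m : ℕ × ℕ × ℤ) (hm : 0 < m.2.1) (c : ℕ) (hc : 0 < c) (h : ℤ) :
    ∃ l : List (ℕ × ℕ × ℤ), Good l ∧ {x : ℤ | (c : ℤ) * x + h ∈ mset m} ⊆ cover l ∧
      weight l ≤ c * wt m := by
  obtain ⟨k, a, b⟩ := m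
  simp only at hm
  by_cases hne : ∃ x0 : ℤ, (c : ℤ) * x0 + h ∈ mset (k, a, b)
  · obtain ⟨x0, y0, hy0, hxy0⟩ := hne
    simp only at hxy0
    set g : ℕ := Nat.gcd a c with hg
    have hgpos : 0 < g := Nat.gcd_pos_of_pos_left _ hm
    obtain ⟨a', ha'⟩ : g ∣ a := Nat.gcd_dvd_left a c
    obtain ⟨c', hc'⟩ : g ∣ c := Nat.gcd_dvd_right a c
    have hcop : Nat.Coprime a' c' := by
      have := Nat.coprime_div_gcd_div_gcd (m := a) (n := c) hgpos
      rw [← hg] at this
      have e1 : a / g = a' := by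
        conv_lhs => rw [ha']
        exact Nat.mul_div_cancel_left _ hgpos
      have e2 : c / g = c' := by
        conv_lhs => rw [hc']
        exact Nat.mul_div_cancel_left _ hgpos
      rwa [e1, e2] at this
    have ha'pos : 0 < a' := by
      rcases Nat.eq_zero_or_pos a' with h0 | h0
      · rw [h0] at ha'; omega
      · exact h0
    have hc'pos : 0 < c' := by
      rcases Nat.eq_zero_or_pos c' with h0 | h0
      · rw [h0] at hc'; omega
      · exact h0
    have hgR : (0 : ℝ) < g := by exact_mod_cast hgpos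
    have ha'R : (0 : ℝ) < a' := by exact_mod_cast ha'pos
    have hc'R : (0 : ℝ) < c' := by exact_mod_cast hc'pos
    have haR : (a : ℝ) = g * a' := by exact_mod_cast ha'
    have hcR : (c : ℝ) = g * c' := by exact_mod_cast hc'
    have haZ : (a : ℤ) = g * a' := by exact_mod_cast ha'
    have hcZ : (c : ℤ) = g * c' := by exact_mod_cast hc'
    have hgZ : (g : ℤ) ≠ 0 := by exact_mod_cast hgpos.ne'
    -- the relation between x and y
    have key : ∀ x y : ℤ, (c : ℤ) * x + h = a * y + b → (c' : ℤ) * (x - x0) = a' * (y - y0) := by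
      intro x y hxy
      have : (g : ℤ) * (c' * (x - x0)) = g * (a' * (y - y0)) := by
        have e1 : (c : ℤ) * (x - x0) = a * (y - y0) := by linarith
        rw [haZ, hcZ] at e1
        linarith
      exact mul_left_cancel₀ hgZ this
    by_cases hc2 : 2 ≤ c'
    · -- cover by a full progression
      refine ⟨[(0, a', x0)], ?_, ?_, ?_⟩
      · intro m hm'
        simp at hm'
        simp [hm', ha'pos]
      · rintro x ⟨y, hy, hxy⟩
        simp only at hxy
        have hk := key x y hxy
        have hdvd : (a' : ℤ) ∣ (x - x0) := by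
          have h1 : (a' : ℤ) ∣ (c' : ℤ) * (x - x0) := ⟨_, hk⟩
          have hco : IsCoprime (a' : ℤ) (c' : ℤ) := Nat.isCoprime_iff_coprime.2 hcop
          exact hco.dvd_of_dvd_mul_left h1
        obtain ⟨s, hs⟩ := hdvd
        refine ⟨_, List.mem_singleton.2 rfl, s, ?_, ?_⟩
        · intro h2
          simp at h2
        · simp only
          linarith
      · have e1 : weight [(0, a', x0)] = 1 / (a' : ℝ) := by
          simp [weight, wt, w]
        rw [e1]
        unfold wt
        simp only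
        rw [haR, hcR]
        have hw := half_le_w k
        have h2 : (2 : ℝ) ≤ c' := by exact_mod_cast hc2
        have e2 : (g : ℝ) * c' * (w k / (g * a')) = (c' * w k) / a' := by
          field_simp
        rw [e2]
        apply div_le_div_of_nonneg_right _ ha'R.le
        nlinarith
    · have hc1 : c' = 1 := by omega
      subst hc1
      refine ⟨[(k, a', x0 - a' * y0)], ?_, ?_, ?_⟩
      · intro m hm'
        simp at hm'
        simp [hm', ha'pos]
      · rintro x ⟨y, hy, hxy⟩
        simp only at hxy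
        have hk := key x y hxy
        refine ⟨_, List.mem_singleton.2 rfl, y, hy, ?_⟩
        simp only
        push_cast at hk
        linarith
      · have e1 : weight [(k, a', x0 - a' * y0)] = w k / (a' : ℝ) := by
          simp [weight, wt]
        rw [e1]
        unfold wt
        simp only
        rw [haR, hcR]
        apply le_of_eq
        push_cast
        field_simp
  · refine ⟨[], ?_, ?_, ?_⟩
    · intro m hm'
      simp at hm'
    · intro x hx
      exact absurd ⟨x, hx⟩ hne
    · have : 0 ≤ (c : ℝ) * wt (k, a, b) := mul_nonneg (Nat.cast_nonneg _) (wt_nonneg _)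
      simpa [weight] using this

lemma preimage_list (l : List (ℕ × ℕ × ℤ)) (hl : Good l) (c : ℕ) (hc : 0 < c) (h : ℤ) :
    ∃ l' : List (ℕ × ℕ × ℤ), Good l' ∧ {x : ℤ | (c : ℤ) * x + h ∈ cover l} ⊆ cover l' ∧
      weight l' ≤ c * weight l := by
  induction l with
  | nil =>
    refine ⟨[], ?_, ?_, ?_⟩
    · intro m hm'
      simp at hm'
    · rintro x ⟨m, hm, -⟩
      simp at hm
    · simp [weight]
  | cons m l ih =>
    obtain ⟨l1, g1, s1, w1⟩ := ih (fun m' hm' => hl m' (List.mem_cons_of_mem _ hm'))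
    obtain ⟨l2, g2, s2, w2⟩ := preimage_member m (hl m List.mem_cons_self) c hc h
    refine ⟨l2 ++ l1, ?_, ?_, ?_⟩
    · intro m' hm'
      rcases List.mem_append.1 hm' with h | h
      · exact g2 m' h
      · exact g1 m' h
    · rintro x ⟨m', hm', hx⟩
      rcases List.mem_cons.1 hm' with h | h
      · subst h
        obtain ⟨m'', hm'', hx''⟩ := s2 hx
        exact ⟨m'', List.mem_append_left _ hm'', hx''⟩
      · obtain ⟨m'', hm'', hx''⟩ := s1 ⟨m', h, hx⟩
        exact ⟨m'', List.mem_append_right _ hm'', hx''⟩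
    · rw [weight_append, weight_cons]
      linarith

lemma mu_le_affine (S : Set ℤ) (c : ℕ) (hc : 0 < c) (h : ℤ) :
    mu S ≤ (c : ℝ) * mu (affine (c : ℤ) h S) := by
  have hc' : (0 : ℝ) < c := by exact_mod_cast hc
  have : mu S / c ≤ mu (affine (c : ℤ) h S) := by
    apply le_mu
    intro l hl hS
    obtain ⟨l', g', s', w'⟩ := preimage_list l hl c hc h
    have h1 : mu S ≤ weight l' := by
      apply mu_le g'
      intro x hx
      apply s'
      exact hS ⟨x, hx, rfl⟩
    rw [div_le_iff₀ hc']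
    linarith
  rw [div_le_iff₀ hc'] at this
  linarith

lemma mu_affine (S : Set ℤ) (c : ℕ) (hc : 0 < c) (h : ℤ) :
    mu (affine (c : ℤ) h S) = (1 / (c : ℝ)) * mu S := by
  have hc' : (0 : ℝ) < c := by exact_mod_cast hc
  have h1 := mu_affine_le S c hc h
  have h2 := mu_le_affine S c hc h
  have : mu S = (c : ℝ) * mu (affine (c : ℤ) h S) := le_antisymm h2 h1
  rw [this]
  field_simp

/-! ### Counting -/

lemma card_class (x v : ℤ) (r L : ℕ) (hr : 0 < r) (hL : r ∣ L) :
    ((((Finset.Ico x (x + L)).filter (fun y => y ≡ v [ZMOD (r : ℤ)])).card : ℕ) : ℝ)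
      = (L : ℝ) / r := by
  have hrZ : (0 : ℤ) < r := by exact_mod_cast hr
  have h := Int.Ico_filter_modEq_card x (x + L) hrZ v
  obtain ⟨q, hq⟩ := hL
  have e : ⌈((x + L : ℤ) - v : ℚ) / ((r : ℤ) : ℚ)⌉ = ⌈((x : ℚ) - v) / ((r : ℤ) : ℚ)⌉ + q := by
    have hrQ : ((r : ℤ) : ℚ) ≠ 0 := by exact_mod_cast hr.ne'
    have : (((x + L : ℤ) : ℚ) - v) / ((r : ℤ) : ℚ) = ((x : ℚ) - v) / ((r : ℤ) : ℚ) + (q : ℤ) := by
      rw [hq]
      push_cast
      field_simp
      ring
    rw [this, Int.ceil_add_intCast]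
  rw [e] at h
  have h2 : (((Finset.Ico x (x + L)).filter (fun y => y ≡ v [ZMOD (r : ℤ)])).card : ℤ) = q := by
    rw [h]
    simp
  have h3 : (((Finset.Ico x (x + L)).filter (fun y => y ≡ v [ZMOD (r : ℤ)])).card : ℕ) = q := by
    exact_mod_cast h2
  rw [h3, hq]
  have hrR : (r : ℝ) ≠ 0 := by exact_mod_cast hr.ne'
  push_cast
  field_simp

open Classical in
lemma card_member (k a : ℕ) (b x : ℤ) (L : ℕ) (ha : 0 < a) (hL : a * (max k 1) ∣ L)
    (hthin : 2 ≤ k → ∀ y : ℤ, x ≤ y → y < x + L → ∀ z : ℤ, y = a * ((k : ℤ) * z) + b → z ∈ X) :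
    ((((Finset.Ico x (x + L)).filter (fun y => y ∈ mset (k, a, b))).card : ℕ) : ℝ)
      ≤ (L : ℝ) * wt (k, a, b) := by
  have haR : (a : ℝ) ≠ 0 := by exact_mod_cast ha.ne'
  have hL1 : a ∣ L := (Dvd.intro _ rfl).trans hL
  by_cases hk : 2 ≤ k
  · have hkR : (k : ℝ) ≠ 0 := by
      have : k ≠ 0 := by omega
      exact_mod_cast this
    have hmax : max k 1 = k := by omega
    rw [hmax] at hL
    have hak : 0 < a * k := Nat.mul_pos ha (by omega)
    have c1 := card_class x b a L ha hL1
    have c2 := card_class x b (a * k) L hak hL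
    have hsub : (Finset.Ico x (x + L)).filter (fun y => y ∈ mset (k, a, b)) ⊆
        (Finset.Ico x (x + L)).filter (fun y => y ≡ b [ZMOD (a : ℤ)]) \
        (Finset.Ico x (x + L)).filter (fun y => y ≡ b [ZMOD ((a * k : ℕ) : ℤ)]) := by
      intro y hy
      rw [Finset.mem_filter] at hy
      obtain ⟨hyI, z, hz, hyz⟩ := hy
      simp only at hyz
      rw [Finset.mem_sdiff, Finset.mem_filter, Finset.mem_filter]
      refine ⟨⟨hyI, ?_⟩, ?_⟩
      · rw [hyz]
        exact (Int.modEq_iff_dvd.2 ⟨-z, by ring⟩)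
      · rintro ⟨-, hy2⟩
        obtain ⟨s, hs⟩ := (Int.modEq_iff_dvd.1 hy2)
        rw [Finset.mem_Ico] at hyI
        have haZ : (a : ℤ) ≠ 0 := by exact_mod_cast ha.ne'
        have hzs : z = (k : ℤ) * (-s) := by
          apply mul_left_cancel₀ haZ
          push_cast at hs
          linarith
        have hX := hthin hk y hyI.1 hyI.2 (-s) (by rw [← hzs]; exact hyz)
        exact hz hk (-s) hX hzs
    have hsub2 : (Finset.Ico x (x + L)).filter (fun y => y ≡ b [ZMOD ((a * k : ℕ) : ℤ)]) ⊆
        (Finset.Ico x (x + L)).filter (fun y => y ≡ b [ZMOD (a : ℤ)]) := by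
      intro y hy
      rw [Finset.mem_filter] at hy ⊢
      refine ⟨hy.1, ?_⟩
      apply hy.2.of_dvd
      push_cast
      exact Dvd.intro _ rfl
    have hc := Finset.card_le_card hsub
    have hcd := Finset.card_sdiff_add_card_eq_card hsub2
    have hc' : ((((Finset.Ico x (x + L)).filter (fun y => y ∈ mset (k, a, b))).card : ℕ) : ℝ) ≤
        ((((Finset.Ico x (x + L)).filter (fun y => y ≡ b [ZMOD (a : ℤ)])) \
        ((Finset.Ico x (x + L)).filter (fun y => y ≡ b [ZMOD ((a * k : ℕ) : ℤ)]))).card : ℝ) := by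
      exact_mod_cast hc
    have hcd' : ((((Finset.Ico x (x + L)).filter (fun y => y ≡ b [ZMOD (a : ℤ)])) \
        ((Finset.Ico x (x + L)).filter (fun y => y ≡ b [ZMOD ((a * k : ℕ) : ℤ)]))).card : ℝ) +
        (((Finset.Ico x (x + L)).filter (fun y => y ≡ b [ZMOD ((a * k : ℕ) : ℤ)])).card : ℝ) =
        (((Finset.Ico x (x + L)).filter (fun y => y ≡ b [ZMOD (a : ℤ)])).card : ℝ) := by
      exact_mod_cast hcd
    have e : (L : ℝ) * wt (k, a, b) = (L : ℝ) / a - (L : ℝ) / ((a * k : ℕ) : ℝ) := by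
      unfold wt w
      simp only [hk, if_true]
      push_cast
      field_simp
    rw [e]
    linarith
  · have e : wt (k, a, b) = 1 / a := by
      unfold wt w
      simp [hk]
    have c1 := card_class x b a L ha hL1
    have hsub : (Finset.Ico x (x + L)).filter (fun y => y ∈ mset (k, a, b)) ⊆
        (Finset.Ico x (x + L)).filter (fun y => y ≡ b [ZMOD (a : ℤ)]) := by
      intro y hy
      rw [Finset.mem_filter] at hy ⊢
      obtain ⟨hyI, z, hz, hyz⟩ := hy
      refine ⟨hyI, ?_⟩
      rw [hyz]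
      exact (Int.modEq_iff_dvd.2 ⟨-z, by ring⟩)
    have hc := Finset.card_le_card hsub
    have hc' : ((((Finset.Ico x (x + L)).filter (fun y => y ∈ mset (k, a, b))).card : ℕ) : ℝ) ≤
        (((Finset.Ico x (x + L)).filter (fun y => y ≡ b [ZMOD (a : ℤ)])).card : ℝ) := by
      exact_mod_cast hc
    rw [e]
    rw [c1] at hc'
    calc _ ≤ (L : ℝ) / a := hc'
      _ = (L : ℝ) * (1 / a) := by ring

open Classical in
lemma card_cover (I : Finset ℤ) (l : List (ℕ × ℕ × ℤ)) :
    ∀ J : Finset ℤ, J ⊆ I → (∀ y ∈ J, y ∈ cover l) →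
      J.card ≤ (l.map (fun m => (I.filter (fun y => y ∈ mset m)).card)).sum := by
  induction l with
  | nil =>
    intro J _ hJ
    have : J = ∅ := by
      apply Finset.eq_empty_of_forall_notMem
      intro y hy
      obtain ⟨m, hm, -⟩ := hJ y hy
      simp at hm
    simp [this]
  | cons m l ih =>
    intro J hJI hJ
    have h1 := ih (J.filter (fun y => ¬ y ∈ mset m)) ((Finset.filter_subset _ _).trans hJI) (by
      intro y hy
      rw [Finset.mem_filter] at hy
      obtain ⟨m', hm', hy'⟩ := hJ y hy.1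
      rcases List.mem_cons.1 hm' with h | h
      · subst h
        exact absurd hy' hy.2
      · exact ⟨m', h, hy'⟩)
    have h2 : (J.filter (fun y => y ∈ mset m)).card ≤ (I.filter (fun y => y ∈ mset m)).card :=
      Finset.card_le_card (Finset.filter_subset_filter _ hJI)
    have h3 := Finset.card_filter_add_card_filter_not (s := J) (fun y => y ∈ mset m)
    rw [List.map_cons, List.sum_cons]
    omega

lemma dvd_prod (l : List (ℕ × ℕ × ℤ)) (m : ℕ × ℕ × ℤ) (hm : m ∈ l) :
    m.2.1 * (max m.1 1) ∣ (l.map (fun m => m.2.1 * (max m.1 1))).prod :=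
  List.dvd_prod (List.mem_map.2 ⟨m, hm, rfl⟩)

lemma abs_le_sum (l : List (ℕ × ℕ × ℤ)) (m : ℕ × ℕ × ℤ) (hm : m ∈ l) :
    m.2.2.natAbs ≤ (l.map (fun m => m.2.2.natAbs)).sum :=
  List.single_le_sum (by intro x _; exact Nat.zero_le x) _ (List.mem_map.2 ⟨m, hm, rfl⟩)

lemma one_le_weight (l : List (ℕ × ℕ × ℤ)) (hl : Good l)
    (hS : {n : ℤ | 0 < n} \ X ⊆ cover l) : 1 ≤ weight l := by
  classical
  set L : ℕ := (l.map (fun m => m.2.1 * (max m.1 1))).prod with hLdef
  set B : ℕ := (l.map (fun m => m.2.2.natAbs)).sum with hBdef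
  have hLpos : 0 < L := by
    apply Nat.pos_of_ne_zero
    intro h0
    rw [hLdef] at h0
    rw [List.prod_eq_zero_iff] at h0
    obtain ⟨m, hm, h⟩ := List.mem_map.1 h0
    have := hl m hm
    have h3 : 0 < m.2.1 * max m.1 1 := Nat.mul_pos this (by omega)
    omega
  set n : ℕ := L + 2 * B + 1 with hn
  set F : ℕ := (2 * n + 1).factorial with hF
  set x : ℤ := (F : ℤ) + B + 1 with hx
  have hFge : (L : ℤ) + 2 * B + 1 ≤ F := by
    have h1 : 2 * n + 1 ≤ F := Nat.self_le_factorial _
    have h2 : L + 2 * B + 1 ≤ F := by omega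
    exact_mod_cast h2
  have hFpos : (0 : ℤ) < F := by
    have := Nat.factorial_pos (2 * n + 1)
    exact_mod_cast this
  have hFsucc : ((2 * n + 1).factorial : ℤ) = ((2 * n + 1 : ℕ) : ℤ) * ((2 * n).factorial : ℤ) := by
    rw [Nat.factorial_succ]
    push_cast
    ring
  -- all of the block lies in the complement of `X`
  have hblock : ∀ y : ℤ, x ≤ y → y < x + L → y ∈ {n : ℤ | 0 < n} \ X := by
    intro y h1 h2
    refine ⟨?_, ?_⟩
    · show 0 < y
      omega
    · rintro ⟨j, hj1, hj2⟩
      rcases Nat.lt_or_ge n j with hj | hj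
      · have h3 : (2 * n + 2).factorial ≤ (2 * j).factorial := Nat.factorial_le (by omega)
        have h4 : (2 * n + 2).factorial = (2 * n + 2) * F := by
          rw [hF, ← Nat.factorial_succ]
        have h5 : 2 * F ≤ (2 * n + 2) * F := Nat.mul_le_mul_right _ (by omega)
        have h6 : ((2 * F : ℕ) : ℤ) ≤ ((2 * j).factorial : ℤ) := by
          exact_mod_cast (h5.trans (h4 ▸ h3))
        push_cast at h6
        omega
      · have h3 : (2 * j + 1).factorial ≤ F := Nat.factorial_le (by omega)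
        have h4 : ((2 * j + 1).factorial : ℤ) ≤ F := by exact_mod_cast h3
        omega
  have hcov := card_cover (Finset.Ico x (x + L)) l (Finset.Ico x (x + L)) (Finset.Subset.refl _) (by
    intro y hy
    rw [Finset.mem_Ico] at hy
    exact hS (hblock y hy.1 hy.2))
  have hcard : (Finset.Ico x (x + L)).card = L := by simp
  rw [hcard] at hcov
  have hsum : (((l.map (fun m => ((Finset.Ico x (x + L)).filter (fun y => y ∈ mset m)).card)).sum : ℕ) : ℝ)
      ≤ (L : ℝ) * weight l := by
    have hmem : ∀ m ∈ l,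
        ((((Finset.Ico x (x + L)).filter (fun y => y ∈ mset m)).card : ℕ) : ℝ) ≤ (L : ℝ) * wt m := by
      rintro ⟨k, a, b⟩ hm
      have ha : 0 < a := hl _ hm
      have hd : a * max k 1 ∣ L := dvd_prod l _ hm
      have hb : b.natAbs ≤ B := abs_le_sum l _ hm
      apply card_member k a b x L ha hd
      intro hk y hy1 hy2 z hz
      have hmax : max k 1 = k := by omega
      rw [hmax] at hd
      have hle : a * k ≤ L := Nat.le_of_dvd hLpos hd
      have hge : 2 ≤ a * k := by
        calc 2 ≤ 1 * k := by omega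
          _ ≤ a * k := Nat.mul_le_mul_right _ ha
      set q : ℤ := ((a * k : ℕ) : ℤ) with hq
      have hqz : y - b = q * z := by
        rw [hz, hq]
        push_cast
        ring
      have hq2 : (2 : ℤ) ≤ q := by rw [hq]; exact_mod_cast hge
      have hqn : q ≤ ((2 * n + 1 : ℕ) : ℤ) := by
        rw [hq]
        have : a * k ≤ 2 * n + 1 := by omega
        exact_mod_cast this
      have hb1 : b ≤ B := by omega
      have hb2 : -(B : ℤ) ≤ b := by omega
      refine ⟨n, ?_, ?_⟩
      · -- lower bound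
        have h1 : (F : ℤ) < q * z := by omega
        have hG : (0 : ℤ) < ((2 * n).factorial : ℤ) := by
          have := Nat.factorial_pos (2 * n)
          exact_mod_cast this
        have h2 : q * ((2 * n).factorial : ℤ) ≤ F := by
          rw [hF, hFsucc]
          exact mul_le_mul_of_nonneg_right hqn hG.le
        have h3 : q * ((2 * n).factorial : ℤ) < q * z := lt_of_le_of_lt h2 h1
        exact (lt_of_mul_lt_mul_left h3 (by omega)).le
      · have h1 : q * z < 2 * F := by omega
        have h2 : 2 * (F : ℤ) ≤ q * F := mul_le_mul_of_nonneg_right hq2 hFpos.le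
        have h3 : q * z < q * F := lt_of_lt_of_le h1 h2
        exact (lt_of_mul_lt_mul_left h3 (by omega)).le
    clear hcov hblock hS hl
    revert hmem
    generalize (Finset.Ico x (x + L)) = I
    generalize (L : ℝ) = R
    clear_value L B n F x
    clear hLdef hBdef
    intro hmem
    induction l with
    | nil => simp [weight]
    | cons m l ih =>
      rw [List.map_cons, List.sum_cons, weight_cons]
      have h1 := hmem m List.mem_cons_self
      have h2 := ih (fun m' hm' => hmem m' (List.mem_cons_of_mem _ hm'))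
      push_cast at h2 ⊢
      linarith
  have hLR : (0 : ℝ) < L := by exact_mod_cast hLpos
  have h5 : (L : ℝ) ≤ L * weight l := by
    refine le_trans ?_ hsum
    exact_mod_cast hcov
  by_contra hlt
  push Not at hlt
  nlinarith

lemma mu_compl : mu ({n : ℤ | 0 < n} \ X) = 1 :=
  le_antisymm (mu_le_one _) (le_mu one_le_weight)

lemma X_pos : X ⊆ {n : ℤ | 0 < n} := by
  rintro x ⟨n, h1, -⟩
  have : (0 : ℤ) < ((2 * n).factorial : ℤ) := by
    have := Nat.factorial_pos (2 * n)
    exact_mod_cast this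
  exact lt_of_lt_of_le this h1

lemma pos_subset_ground {H : Set ℤ} (hH : IsGround H) : {n : ℤ | 0 < n} ⊆ H := by
  rcases hH with h | h | h
  · rw [h]; exact Set.subset_univ _
  · rw [h]
    intro n hn
    have hn' : (0 : ℤ) < n := hn
    exact hn'.le
  · rw [h]

lemma mu_isUpperDensity {H : Set ℤ} (hH : IsGround H) : IsUpperDensity H mu where
  total := by
    apply le_antisymm (mu_le_one _)
    rw [← mu_compl]
    exact mu_mono (Set.sdiff_subset.trans (pos_subset_ground hH))
  subadd := fun S S' _ _ => mu_union S S'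
  affine := fun S _ h k _ hk => mu_affine S k hk h
  le_one := fun S _ => mu_le_one S
  mono := fun _ _ h _ => mu_mono h

/-- **Negative answer to Q1.**  On each of the three ground sets there is an upper density `μ`
and a set `X` with lower dual value `0` such that, for every `k ≥ 2`, the lower dual of `k·X`
is `1/k` (and not `(1/k)·0 = 0`). -/
theorem result (H : Set ℤ) (hH : IsGround H) :
    ∃ μ : Set ℤ → ℝ, IsUpperDensity H μ ∧ ∃ X : Set ℤ, X ⊆ H ∧ lowerDual H μ X = 0 ∧
      ∀ k : ℕ, 2 ≤ k → lowerDual H μ (affine (k : ℤ) 0 X) = 1 / (k : ℝ) := by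
  refine ⟨mu, mu_isUpperDensity hH, X, X_pos.trans (pos_subset_ground hH), ?_, ?_⟩
  · unfold lowerDual
    have : mu (H \ X) = 1 := by
      apply le_antisymm (mu_le_one _)
      rw [← mu_compl]
      exact mu_mono (Set.sdiff_subset_sdiff_left (pos_subset_ground hH))
    rw [this]
    norm_num
  · intro k hk
    have hkpos : 0 < k := by omega
    have hkR : (0 : ℝ) < k := by exact_mod_cast hkpos
    unfold lowerDual
    -- upper bound for the complement
    have h1 : mu (H \ affine (k : ℤ) 0 X) ≤ 1 - 1 / (k : ℝ) := by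
      have h2 : mu (H \ affine (k : ℤ) 0 X) ≤ weight [(k, 1, 0)] := by
        apply mu_le
        · intro m hm
          simp at hm
          simp [hm]
        · intro y hy
          refine ⟨_, List.mem_singleton.2 rfl, y, ?_, by simp⟩
          intro _ x hx hyx
          exact hy.2 ⟨x, hx, by simpa using hyx⟩
      have h3 : weight [(k, 1, 0)] = 1 - 1 / (k : ℝ) := by
        simp [weight, wt, w, hk]
      rwa [h3] at h2
    have h4 : 1 - 1 / (k : ℝ) ≤ mu (H \ affine (k : ℤ) 0 X) := by
      have h5 : mu H = 1 := (mu_isUpperDensity hH).total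
      have h6 : mu H ≤ mu (H \ affine (k : ℤ) 0 X) + mu (affine (k : ℤ) 0 X) := by
        refine le_trans (mu_mono ?_) (mu_union _ _)
        intro y hy
        by_cases hy2 : y ∈ affine (k : ℤ) 0 X
        · exact Or.inr hy2
        · exact Or.inl ⟨hy, hy2⟩
      have h7 : mu (affine (k : ℤ) 0 X) = (1 / (k : ℝ)) * mu X := mu_affine X k hkpos 0
      have h8 : (1 / (k : ℝ)) * mu X ≤ (1 / (k : ℝ)) * 1 :=
        mul_le_mul_of_nonneg_left (mu_le_one X) (by positivity)
      rw [h7] at h6
      linarith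
    have := le_antisymm h1 h4
    rw [this]
    ring

end Pool.Agent.Results.MP_1da4e9_nt.LowerDensityNotHomogeneous
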