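import Mathlib
import Pool.Agent.Helper95.Densities

/-!
Full answer to Q2 of MP_1da4e9_nt.
-/

open Pool.Agent.Helper95.Densities

namespace Pool.Agent.Results.MP_1da4e9_nt.LowerQuasiDensityInvariance

/-! ### An auxiliary upper density `nu` (covers by residue classes) -/

/-- union of the residue classes coded by the list -/
def ucov (l : List (ℕ × ℤ)) : Set ℤ := {y : ℤ | ∃ p ∈ l, (p.1 : ℤ) ∣ y - p.2}

/-- the sum of the densities of the classes -/
noncomputable def wsum (l : List (ℕ × ℤ)) : ℝ := (l.map (fun p => 1 / (p.1 : ℝ))).sum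

/-- all moduli are positive -/
def Pos (l : List (ℕ × ℤ)) : Prop := ∀ p ∈ l, 0 < p.1

noncomputable def nu (S : Set ℤ) : ℝ :=
  sInf {r : ℝ | ∃ l : List (ℕ × ℤ), Pos l ∧ S ⊆ ucov l ∧ wsum l = r}

lemma wsum_nonneg (l : List (ℕ × ℤ)) : 0 ≤ wsum l := by
  unfold wsum
  apply List.sum_nonneg
  intro x hx
  obtain ⟨m, -, rfl⟩ := List.mem_map.1 hx
  positivity

lemma wsum_cons (p : ℕ × ℤ) (l : List (ℕ × ℤ)) : wsum (p :: l) = 1 / (p.1 : ℝ) + wsum l := by
  simp [wsum]

lemma wsum_append (l l' : List (ℕ × ℤ)) : wsum (l ++ l') = wsum l + wsum l' := by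
  simp [wsum]

lemma nu_le {S : Set ℤ} {l : List (ℕ × ℤ)} (hl : Pos l) (hS : S ⊆ ucov l) : nu S ≤ wsum l := by
  refine csInf_le ⟨0, ?_⟩ ⟨l, hl, hS, rfl⟩
  rintro r ⟨l, -, -, rfl⟩
  exact wsum_nonneg l

lemma le_nu {S : Set ℤ} {c : ℝ} (h : ∀ l : List (ℕ × ℤ), Pos l → S ⊆ ucov l → c ≤ wsum l) :
    c ≤ nu S := by
  apply le_csInf
  · refine ⟨_, [(1, 0)], ?_, ?_, rfl⟩
    · intro p hp
      simp at hp
      simp [hp]
    · intro y _
      exact ⟨(1, 0), by simp, by simp⟩
  · rintro r ⟨l, hl, hS, rfl⟩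
    exact h l hl hS

lemma nu_nonneg (S : Set ℤ) : 0 ≤ nu S := le_nu fun l _ _ => wsum_nonneg l

lemma nu_le_one (S : Set ℤ) : nu S ≤ 1 := by
  have h : nu S ≤ wsum [(1, 0)] := by
    apply nu_le
    · intro p hp
      simp at hp
      simp [hp]
    · intro y _
      exact ⟨(1, 0), by simp, by simp⟩
  simpa [wsum] using h

lemma nu_empty : nu ∅ = 0 := by
  apply le_antisymm _ (nu_nonneg _)
  have h : nu ∅ ≤ wsum [] := by
    apply nu_le
    · intro p hp
      simp at hp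
    · exact Set.empty_subset _
  simpa [wsum] using h

lemma nu_mono {S S' : Set ℤ} (h : S ⊆ S') : nu S ≤ nu S' :=
  le_nu fun _ hl hS => nu_le hl (h.trans hS)

lemma nu_union (S S' : Set ℤ) : nu (S ∪ S') ≤ nu S + nu S' := by
  have key : ∀ l : List (ℕ × ℤ), Pos l → S ⊆ ucov l → nu (S ∪ S') - nu S' ≤ wsum l := by
    intro l hl hS
    have : nu (S ∪ S') - wsum l ≤ nu S' := by
      apply le_nu
      intro l' hl' hS'
      have h1 : nu (S ∪ S') ≤ wsum (l ++ l') := by
        apply nu_le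
        · intro m hm
          rcases List.mem_append.1 hm with h | h
          · exact hl m h
          · exact hl' m h
        · rintro y (hy | hy)
          · obtain ⟨m, hm, hy⟩ := hS hy
            exact ⟨m, List.mem_append_left _ hm, hy⟩
          · obtain ⟨m, hm, hy⟩ := hS' hy
            exact ⟨m, List.mem_append_right _ hm, hy⟩
      rw [wsum_append] at h1
      linarith
    linarith
  have := le_nu key
  linarith

lemma nu_affine_le (S : Set ℤ) (c : ℕ) (hc : 0 < c) (h : ℤ) :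
    (c : ℝ) * nu (affine (c : ℤ) h S) ≤ nu S := by
  have hc' : (0 : ℝ) < c := by exact_mod_cast hc
  apply le_nu
  intro l hl hS
  have h1 : nu (affine (c : ℤ) h S) ≤ wsum (l.map fun p => (c * p.1, (c : ℤ) * p.2 + h)) := by
    apply nu_le
    · intro m hm
      obtain ⟨m', hm', rfl⟩ := List.mem_map.1 hm
      exact Nat.mul_pos hc (hl m' hm')
    · rintro y ⟨x, hx, rfl⟩
      obtain ⟨m, hm, z, hz⟩ := hS hx
      refine ⟨_, List.mem_map.2 ⟨m, hm, rfl⟩, z, ?_⟩
      push_cast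
      linear_combination (c : ℤ) * hz
  have h2 : wsum (l.map fun p => (c * p.1, (c : ℤ) * p.2 + h)) = wsum l / c := by
    clear h1 hS hl
    induction l with
    | nil => simp [wsum]
    | cons m l ih =>
      rw [List.map_cons, wsum_cons, ih, wsum_cons]
      push_cast
      field_simp
  rw [h2] at h1
  calc (c : ℝ) * nu (affine (c : ℤ) h S) ≤ c * (wsum l / c) :=
        mul_le_mul_of_nonneg_left h1 hc'.le
    _ = wsum l := by field_simp

lemma nu_preimage (l : List (ℕ × ℤ)) (hl : Pos l) (c : ℕ) (hc : 0 < c) (t : ℤ) :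
    ∃ l' : List (ℕ × ℤ), Pos l' ∧ {x : ℤ | (c : ℤ) * x + t ∈ ucov l} ⊆ ucov l' ∧
      wsum l' ≤ c * wsum l := by
  induction l with
  | nil =>
    refine ⟨[], ?_, ?_, ?_⟩
    · intro p hp
      simp at hp
    · rintro x ⟨m, hm, -⟩
      simp at hm
    · simp [wsum]
  | cons m l ih =>
    obtain ⟨l1, g1, s1, w1⟩ := ih (fun m' hm' => hl m' (List.mem_cons_of_mem _ hm'))
    obtain ⟨a, b⟩ := m
    have ha : 0 < a := hl _ List.mem_cons_self
    by_cases hne : ∃ x0 : ℤ, (a : ℤ) ∣ (c : ℤ) * x0 + t - b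
    · obtain ⟨x0, hx0⟩ := hne
      set g : ℕ := Nat.gcd a c with hg
      have hgpos : 0 < g := Nat.gcd_pos_of_pos_left _ ha
      obtain ⟨a', ha'⟩ : g ∣ a := Nat.gcd_dvd_left a c
      obtain ⟨c', hc'⟩ : g ∣ c := Nat.gcd_dvd_right a c
      have hcop : Nat.Coprime a' c' := by
        have := Nat.coprime_div_gcd_div_gcd (m := a) (n := c) hgpos
        rw [← hg] at this
        have e1 : a / g = a' := by
          conv_lhs => rw [ha']
          exact Nat.mul_div_cancel_left _ hgpos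
        have e2 : c / g = c' := by
          conv_lhs => rw [hc']
          exact Nat.mul_div_cancel_left _ hgpos
        rwa [e1, e2] at this
      have ha'pos : 0 < a' := by
        rcases Nat.eq_zero_or_pos a' with h0 | h0
        · rw [h0] at ha'; omega
        · exact h0
      have hc'pos : 0 < c' := by
        rcases Nat.eq_zero_or_pos c' with h0 | h0
        · rw [h0] at hc'; omega
        · exact h0
      refine ⟨(a', x0) :: l1, ?_, ?_, ?_⟩
      · intro p hp
        rcases List.mem_cons.1 hp with h | h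
        · rw [h]; exact ha'pos
        · exact g1 p h
      · rintro x ⟨p, hp, hx⟩
        rcases List.mem_cons.1 hp with h | h
        · subst h
          refine ⟨(a', x0), List.mem_cons_self, ?_⟩
          simp only at hx ⊢
          have h1 : (a : ℤ) ∣ (c : ℤ) * (x - x0) := by
            have := dvd_sub hx hx0
            have e : (c : ℤ) * x + t - b - ((c : ℤ) * x0 + t - b) = (c : ℤ) * (x - x0) := by ring
            rwa [e] at this
          have haZ : (a : ℤ) = g * a' := by exact_mod_cast ha'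
          have hcZ : (c : ℤ) = g * c' := by exact_mod_cast hc'
          rw [haZ, hcZ, mul_assoc] at h1
          have hgZ : (g : ℤ) ≠ 0 := by exact_mod_cast hgpos.ne'
          have h2 : (a' : ℤ) ∣ (c' : ℤ) * (x - x0) := (mul_dvd_mul_iff_left hgZ).1 h1
          have hco : IsCoprime (a' : ℤ) (c' : ℤ) := Nat.isCoprime_iff_coprime.2 hcop
          exact hco.dvd_of_dvd_mul_left h2
        · obtain ⟨p', hp', hx'⟩ := s1 ⟨p, h, hx⟩
          exact ⟨p', List.mem_cons_of_mem _ hp', hx'⟩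
      · rw [wsum_cons, wsum_cons]
        simp only
        have ha'R : (0 : ℝ) < a' := by exact_mod_cast ha'pos
        have hgR : (0 : ℝ) < g := by exact_mod_cast hgpos
        have hc'R : (1 : ℝ) ≤ c' := by exact_mod_cast hc'pos
        have haR : (a : ℝ) = g * a' := by exact_mod_cast ha'
        have hcR : (c : ℝ) = g * c' := by exact_mod_cast hc'
        have e : (c : ℝ) * (1 / (a : ℝ)) = c' / a' := by
          rw [haR, hcR]
          field_simp
        have h3 : 1 / (a' : ℝ) ≤ c' / a' := div_le_div_of_nonneg_right hc'R ha'R.le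
        rw [mul_add, e]
        linarith
    · refine ⟨l1, g1, ?_, ?_⟩
      · rintro x ⟨p, hp, hx⟩
        rcases List.mem_cons.1 hp with h | h
        · subst h
          exact absurd ⟨x, hx⟩ hne
        · exact s1 ⟨p, h, hx⟩
      · rw [wsum_cons]
        have : 0 ≤ (c : ℝ) * (1 / (a : ℝ)) := by positivity
        simp only
        linarith

lemma nu_affine (S : Set ℤ) (c : ℕ) (hc : 0 < c) (t : ℤ) :
    nu (affine (c : ℤ) t S) = (1 / (c : ℝ)) * nu S := by
  have hc' : (0 : ℝ) < c := by exact_mod_cast hc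
  have h1 := nu_affine_le S c hc t
  have h2 : nu S / c ≤ nu (affine (c : ℤ) t S) := by
    apply le_nu
    intro l hl hS
    obtain ⟨l', g', s', w'⟩ := nu_preimage l hl c hc t
    have h1 : nu S ≤ wsum l' := by
      apply nu_le g'
      intro x hx
      apply s'
      exact hS ⟨x, hx, rfl⟩
    rw [div_le_iff₀ hc']
    linarith
  rw [div_le_iff₀ hc'] at h2
  have : nu S = (c : ℝ) * nu (affine (c : ℤ) t S) := by linarith
  rw [this]
  field_simp

lemma card_class (x v : ℤ) (r L : ℕ) (hr : 0 < r) (hL : r ∣ L) :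
    ((((Finset.Ico x (x + L)).filter (fun y => (r : ℤ) ∣ y - v)).card : ℕ) : ℝ)
      = (L : ℝ) / r := by
  have hrZ : (0 : ℤ) < r := by exact_mod_cast hr
  have h := Int.Ico_filter_modEq_card x (x + L) hrZ v
  have hfe : (Finset.Ico x (x + L)).filter (fun y => (r : ℤ) ∣ y - v) =
      (Finset.Ico x (x + L)).filter (fun y => y ≡ v [ZMOD (r : ℤ)]) := by
    apply Finset.filter_congr
    intro y _
    constructor
    · intro h
      exact (Int.modEq_iff_dvd.2 h).symm
    · intro h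
      exact Int.modEq_iff_dvd.1 h.symm
  rw [hfe]
  obtain ⟨q, hq⟩ := hL
  have e : ⌈((x + L : ℤ) - v : ℚ) / ((r : ℤ) : ℚ)⌉ = ⌈((x : ℚ) - v) / ((r : ℤ) : ℚ)⌉ + q := by
    have hrQ : ((r : ℤ) : ℚ) ≠ 0 := by exact_mod_cast hr.ne'
    have : (((x + L : ℤ) : ℚ) - v) / ((r : ℤ) : ℚ) = ((x : ℚ) - v) / ((r : ℤ) : ℚ) + (q : ℤ) := by
      rw [hq]
      push_cast
      field_simp
      ring
    rw [this, Int.ceil_add_intCast]
  rw [e] at h
  have h2 : (((Finset.Ico x (x + L)).filter (fun y => y ≡ v [ZMOD (r : ℤ)])).card : ℤ) = q := by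
    rw [h]
    simp
  have h3 : (((Finset.Ico x (x + L)).filter (fun y => y ≡ v [ZMOD (r : ℤ)])).card : ℕ) = q := by
    exact_mod_cast h2
  rw [h3, hq]
  have hrR : (r : ℝ) ≠ 0 := by exact_mod_cast hr.ne'
  push_cast
  field_simp

open Classical in
lemma card_cover (I : Finset ℤ) (l : List (ℕ × ℤ)) :
    ∀ J : Finset ℤ, J ⊆ I → (∀ y ∈ J, y ∈ ucov l) →
      J.card ≤ (l.map (fun p => (I.filter (fun y => (p.1 : ℤ) ∣ y - p.2)).card)).sum := by
  induction l with
  | nil =>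
    intro J _ hJ
    have : J = ∅ := by
      apply Finset.eq_empty_of_forall_notMem
      intro y hy
      obtain ⟨m, hm, -⟩ := hJ y hy
      simp at hm
    simp [this]
  | cons m l ih =>
    intro J hJI hJ
    have h1 := ih (J.filter (fun y => ¬ (m.1 : ℤ) ∣ y - m.2)) ((Finset.filter_subset _ _).trans hJI) (by
      intro y hy
      rw [Finset.mem_filter] at hy
      obtain ⟨m', hm', hy'⟩ := hJ y hy.1
      rcases List.mem_cons.1 hm' with h | h
      · subst h
        exact absurd hy' hy.2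
      · exact ⟨m', h, hy'⟩)
    have h2 : (J.filter (fun y => (m.1 : ℤ) ∣ y - m.2)).card ≤
        (I.filter (fun y => (m.1 : ℤ) ∣ y - m.2)).card :=
      Finset.card_le_card (Finset.filter_subset_filter _ hJI)
    have h3 := Finset.card_filter_add_card_filter_not (s := J) (fun y => (m.1 : ℤ) ∣ y - m.2)
    rw [List.map_cons, List.sum_cons]
    omega

/-- A set with arbitrarily long intervals has `nu = 1`. -/
lemma nu_eq_one {S : Set ℤ} (h : ∀ L : ℕ, ∃ x : ℤ, ∀ y : ℤ, x ≤ y → y < x + L → y ∈ S) :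
    nu S = 1 := by
  classical
  apply le_antisymm (nu_le_one _)
  apply le_nu
  intro l hl hS
  set L : ℕ := (l.map (fun p => p.1)).prod with hL
  have hLpos : 0 < L := by
    apply Nat.pos_of_ne_zero
    intro h0
    rw [hL, List.prod_eq_zero_iff] at h0
    obtain ⟨m, hm, h⟩ := List.mem_map.1 h0
    have := hl m hm
    omega
  obtain ⟨x, hx⟩ := h L
  have hcov := card_cover (Finset.Ico x (x + L)) l (Finset.Ico x (x + L)) (Finset.Subset.refl _) (by
    intro y hy
    rw [Finset.mem_Ico] at hy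
    exact hS (hx y hy.1 hy.2))
  have hcard : (Finset.Ico x (x + L)).card = L := by simp
  rw [hcard] at hcov
  have hsum : (((l.map (fun p => ((Finset.Ico x (x + L)).filter
      (fun y => (p.1 : ℤ) ∣ y - p.2)).card)).sum : ℕ) : ℝ) = (L : ℝ) * wsum l := by
    have hmem : ∀ p ∈ l, ((((Finset.Ico x (x + L)).filter
        (fun y => (p.1 : ℤ) ∣ y - p.2)).card : ℕ) : ℝ) = (L : ℝ) * (1 / (p.1 : ℝ)) := by
      intro p hp
      rw [card_class x p.2 p.1 L (hl p hp) (List.dvd_prod (List.mem_map.2 ⟨p, hp, rfl⟩))]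
      ring
    clear hcov hx hS hl
    revert hmem
    generalize (Finset.Ico x (x + L)) = I
    generalize (L : ℝ) = R
    clear_value L
    clear hL
    intro hmem
    induction l with
    | nil => simp [wsum]
    | cons m l ih =>
      rw [List.map_cons, List.sum_cons, wsum_cons]
      have h1 := hmem m List.mem_cons_self
      have h2 := ih (fun m' hm' => hmem m' (List.mem_cons_of_mem _ hm'))
      push_cast at h2 ⊢
      linarith
  have hLR : (0 : ℝ) < L := by exact_mod_cast hLpos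
  have h5 : (L : ℝ) ≤ L * wsum l := by
    rw [← hsum]
    exact_mod_cast hcov
  by_contra hlt
  push Not at hlt
  nlinarith

/-! ### The set `Z` and the non-monotone quasi-density -/

/-- `Z c = {c, c+1} ∪ ⋃ [(2n)!, (2n+1)!]` -/
def Z (c : ℤ) : Set ℤ :=
  {z : ℤ | z = c ∨ z = c + 1 ∨
    ∃ n : ℕ, ((2 * n).factorial : ℤ) ≤ z ∧ z ≤ ((2 * n + 1).factorial : ℤ)}

/-- union of the affine images of `Z c` coded by the list -/
def ZU (c : ℤ) (J : List (ℕ × ℤ)) : Set ℤ := {y : ℤ | ∃ p ∈ J, y ∈ affine (p.1 : ℤ) p.2 (Z c)}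

/-- the list codes affine images of `Z c` contained in `S` -/
def Adm (c : ℤ) (S : Set ℤ) (J : List (ℕ × ℤ)) : Prop :=
  ∀ p ∈ J, 0 < p.1 ∧ affine (p.1 : ℤ) p.2 (Z c) ⊆ S

noncomputable def mu (c : ℤ) (S : Set ℤ) : ℝ :=
  sInf {r : ℝ | ∃ J : List (ℕ × ℤ), Adm c S J ∧ nu (S \ ZU c J) = r}

lemma mu_le {c : ℤ} {S : Set ℤ} {J : List (ℕ × ℤ)} (hJ : Adm c S J) : mu c S ≤ nu (S \ ZU c J) := by
  refine csInf_le ⟨0, ?_⟩ ⟨J, hJ, rfl⟩
  rintro r ⟨l, -, rfl⟩
  exact nu_nonneg _

lemma adm_nil (c : ℤ) (S : Set ℤ) : Adm c S [] := by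
  intro p hp
  simp at hp

lemma le_mu {c : ℤ} {S : Set ℤ} {t : ℝ} (h : ∀ J : List (ℕ × ℤ), Adm c S J → t ≤ nu (S \ ZU c J)) :
    t ≤ mu c S := by
  apply le_csInf
  · exact ⟨_, [], adm_nil c S, rfl⟩
  · rintro r ⟨J, hJ, rfl⟩
    exact h J hJ

lemma mu_nonneg (c : ℤ) (S : Set ℤ) : 0 ≤ mu c S := le_mu fun _ _ => nu_nonneg _

lemma mu_le_one (c : ℤ) (S : Set ℤ) : mu c S ≤ 1 := (mu_le (adm_nil c S)).trans (nu_le_one _)

lemma mu_union (c : ℤ) (S S' : Set ℤ) : mu c (S ∪ S') ≤ mu c S + mu c S' := by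
  have key : ∀ J : List (ℕ × ℤ), Adm c S J → mu c (S ∪ S') - mu c S' ≤ nu (S \ ZU c J) := by
    intro J hJ
    have : mu c (S ∪ S') - nu (S \ ZU c J) ≤ mu c S' := by
      apply le_mu
      intro J' hJ'
      have h1 : mu c (S ∪ S') ≤ nu ((S ∪ S') \ ZU c (J ++ J')) := by
        apply mu_le
        intro p hp
        rcases List.mem_append.1 hp with h | h
        · exact ⟨(hJ p h).1, (hJ p h).2.trans Set.subset_union_left⟩
        · exact ⟨(hJ' p h).1, (hJ' p h).2.trans Set.subset_union_right⟩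
      have h2 : (S ∪ S') \ ZU c (J ++ J') ⊆ (S \ ZU c J) ∪ (S' \ ZU c J') := by
        rintro y ⟨hy | hy, hy2⟩
        · left
          refine ⟨hy, ?_⟩
          rintro ⟨p, hp, hyp⟩
          exact hy2 ⟨p, List.mem_append_left _ hp, hyp⟩
        · right
          refine ⟨hy, ?_⟩
          rintro ⟨p, hp, hyp⟩
          exact hy2 ⟨p, List.mem_append_right _ hp, hyp⟩
      have h3 := (nu_mono h2).trans (nu_union _ _)
      linarith
    linarith
  have := le_mu key
  linarith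

lemma c_mem (c : ℤ) : c ∈ Z c := Or.inl rfl

lemma c1_mem (c : ℤ) : c + 1 ∈ Z c := Or.inr (Or.inl rfl)

/-- An affine image of `Z c` inside `k·S+t` is the `k·(·)+t` of an affine image inside `S`. -/
lemma member_descend (c : ℤ) (S : Set ℤ) (k : ℕ) (hk : 0 < k) (t : ℤ) (a : ℕ) (ha : 0 < a) (b : ℤ)
    (h : affine (a : ℤ) b (Z c) ⊆ affine (k : ℤ) t S) :
    ∃ (a' : ℕ) (b' : ℤ), 0 < a' ∧ a = k * a' ∧ b = k * b' + t ∧ affine (a' : ℤ) b' (Z c) ⊆ S := by
  obtain ⟨s, hs, hs'⟩ := h ⟨c, c_mem c, rfl⟩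
  obtain ⟨r, hr, hr'⟩ := h ⟨c + 1, c1_mem c, rfl⟩
  have h1 : (a : ℤ) = k * (r - s) := by linarith
  have h2 : (k : ℤ) ∣ (a : ℤ) := ⟨_, h1⟩
  obtain ⟨a', ha'⟩ : k ∣ a := by exact_mod_cast h2
  have ha'pos : 0 < a' := by
    rcases Nat.eq_zero_or_pos a' with h0 | h0
    · rw [h0] at ha'; omega
    · exact h0
  have haZ : (a : ℤ) = k * a' := by exact_mod_cast ha'
  have hkZ : (k : ℤ) ≠ 0 := by exact_mod_cast hk.ne'
  refine ⟨a', s - a' * c, ha'pos, ha', ?_, ?_⟩
  · rw [haZ] at hs'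
    linear_combination hs'
  · rintro y ⟨z, hz, hyz⟩
    obtain ⟨x, hx, hx'⟩ := h ⟨z, hz, rfl⟩
    have : (k : ℤ) * x = k * y := by
      rw [hyz]
      rw [haZ] at hx' hs'
      linear_combination hs' - hx'
    have := mul_left_cancel₀ hkZ this
    rwa [← this]

lemma mu_affine_le (c : ℤ) (S : Set ℤ) (k : ℕ) (hk : 0 < k) (t : ℤ) :
    (k : ℝ) * mu c (affine (k : ℤ) t S) ≤ mu c S := by
  have hk' : (0 : ℝ) < k := by exact_mod_cast hk
  have hkZ : (k : ℤ) ≠ 0 := by exact_mod_cast hk.ne'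
  apply le_mu
  intro J hJ
  have h1 : mu c (affine (k : ℤ) t S) ≤
      nu (affine (k : ℤ) t S \ ZU c (J.map fun p => (k * p.1, (k : ℤ) * p.2 + t))) := by
    apply mu_le
    intro p hp
    obtain ⟨q, hq, rfl⟩ := List.mem_map.1 hp
    refine ⟨Nat.mul_pos hk (hJ q hq).1, ?_⟩
    rintro y ⟨z, hz, rfl⟩
    refine ⟨(q.1 : ℤ) * z + q.2, (hJ q hq).2 ⟨z, hz, rfl⟩, ?_⟩
    push_cast
    ring
  have h2 : affine (k : ℤ) t S \ ZU c (J.map fun p => (k * p.1, (k : ℤ) * p.2 + t)) ⊆
      affine (k : ℤ) t (S \ ZU c J) := by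
    rintro y ⟨⟨x, hx, rfl⟩, hy⟩
    refine ⟨x, ⟨hx, ?_⟩, rfl⟩
    rintro ⟨p, hp, z, hz, hxz⟩
    apply hy
    refine ⟨_, List.mem_map.2 ⟨p, hp, rfl⟩, z, hz, ?_⟩
    rw [hxz]
    push_cast
    ring
  have h3 := nu_mono h2
  rw [nu_affine _ k hk t] at h3
  calc (k : ℝ) * mu c (affine (k : ℤ) t S) ≤ k * ((1 / (k : ℝ)) * nu (S \ ZU c J)) :=
        mul_le_mul_of_nonneg_left (h1.trans h3) hk'.le
    _ = nu (S \ ZU c J) := by field_simp

lemma descend_list (c : ℤ) (S : Set ℤ) (k : ℕ) (hk : 0 < k) (t : ℤ) (J : List (ℕ × ℤ))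
    (hJ : Adm c (affine (k : ℤ) t S) J) :
    ∃ J' : List (ℕ × ℤ), Adm c S J' ∧ J = J'.map (fun p => (k * p.1, (k : ℤ) * p.2 + t)) := by
  induction J with
  | nil => exact ⟨[], adm_nil c S, rfl⟩
  | cons p J ih =>
    obtain ⟨J', h1, h2⟩ := ih (fun q hq => hJ q (List.mem_cons_of_mem _ hq))
    obtain ⟨a, b⟩ := p
    obtain ⟨ha, hsub⟩ := hJ _ List.mem_cons_self
    obtain ⟨a', b', ha', e1, e2, hs⟩ := member_descend c S k hk t a ha b hsub
    refine ⟨(a', b') :: J', ?_, ?_⟩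
    · intro q hq
      rcases List.mem_cons.1 hq with h | h
      · rw [h]; exact ⟨ha', hs⟩
      · exact h1 q h
    · rw [List.map_cons, ← h2, e1, e2]

lemma mu_affine (c : ℤ) (S : Set ℤ) (k : ℕ) (hk : 0 < k) (t : ℤ) :
    mu c (affine (k : ℤ) t S) = (1 / (k : ℝ)) * mu c S := by
  have hk' : (0 : ℝ) < k := by exact_mod_cast hk
  have hkZ : (k : ℤ) ≠ 0 := by exact_mod_cast hk.ne'
  have h1 := mu_affine_le c S k hk t
  have h2 : mu c S / k ≤ mu c (affine (k : ℤ) t S) := by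
    apply le_mu
    intro J hJ
    obtain ⟨J', hJ', rfl⟩ := descend_list c S k hk t J hJ
    have h3 : affine (k : ℤ) t (S \ ZU c J') ⊆
        affine (k : ℤ) t S \ ZU c (J'.map (fun p => (k * p.1, (k : ℤ) * p.2 + t))) := by
      rintro y ⟨x, ⟨hx, hx2⟩, rfl⟩
      refine ⟨⟨x, hx, rfl⟩, ?_⟩
      rintro ⟨p, hp, z, hz, hxz⟩
      obtain ⟨q, hq, rfl⟩ := List.mem_map.1 hp
      apply hx2
      refine ⟨q, hq, z, hz, ?_⟩
      apply mul_left_cancel₀ hkZ
      push_cast at hxz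
      linear_combination hxz
    have h4 := nu_mono h3
    rw [nu_affine _ k hk t] at h4
    refine le_trans ?_ h4
    rw [div_eq_inv_mul, one_div]
    exact mul_le_mul_of_nonneg_left (mu_le hJ') (by positivity)
  rw [div_le_iff₀ hk'] at h2
  have : mu c S = (k : ℝ) * mu c (affine (k : ℤ) t S) := by linarith
  rw [this]
  field_simp

/-! ### gaps -/

lemma gap {n : ℕ} {y : ℤ} (h1 : ((2 * n + 1).factorial : ℤ) < y)
    (h2 : y < ((2 * n + 2).factorial : ℤ)) :
    ¬ ∃ j : ℕ, ((2 * j).factorial : ℤ) ≤ y ∧ y ≤ ((2 * j + 1).factorial : ℤ) := by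
  rintro ⟨j, hj1, hj2⟩
  rcases Nat.lt_or_ge n j with hj | hj
  · have h3 : (2 * n + 2).factorial ≤ (2 * j).factorial := Nat.factorial_le (by omega)
    have h4 : ((2 * n + 2).factorial : ℤ) ≤ ((2 * j).factorial : ℤ) := by exact_mod_cast h3
    omega
  · have h3 : (2 * j + 1).factorial ≤ (2 * n + 1).factorial := Nat.factorial_le (by omega)
    have h4 : ((2 * j + 1).factorial : ℤ) ≤ ((2 * n + 1).factorial : ℤ) := by exact_mod_cast h3
    omega

lemma not_mem_Z {c : ℤ} (hc : c ≤ 1) {n : ℕ} (hn : 1 ≤ n) {y : ℤ}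
    (h1 : ((2 * n + 1).factorial : ℤ) < y) (h2 : y < ((2 * n + 2).factorial : ℤ)) : y ∉ Z c := by
  have h3 : 2 * n + 1 ≤ (2 * n + 1).factorial := Nat.self_le_factorial _
  have h4 : ((2 * n + 1 : ℕ) : ℤ) ≤ ((2 * n + 1).factorial : ℤ) := by exact_mod_cast h3
  push_cast at h4
  rintro (h | h | h)
  · omega
  · omega
  · exact gap h1 h2 h

lemma fact_step (n : ℕ) : ((2 * n + 2).factorial : ℤ) =
    (2 * (n : ℤ) + 2) * ((2 * n + 1).factorial : ℤ) := by
  rw [Nat.factorial_succ]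
  push_cast
  ring

/-- rigidity: the only affine image of `Z c` inside `Z c` is the trivial one -/
lemma rigid {c : ℤ} (hc : c ≤ 1) (a : ℕ) (ha : 0 < a) (b : ℤ)
    (h : affine (a : ℤ) b (Z c) ⊆ Z c) : a = 1 ∧ b = 0 := by
  set n : ℕ := a + b.natAbs + 1 with hn
  have hF1 : 2 * n + 1 ≤ (2 * n + 1).factorial := Nat.self_le_factorial _
  have hF : ((2 * n + 1 : ℕ) : ℤ) ≤ ((2 * n + 1).factorial : ℤ) := by exact_mod_cast hF1
  set F : ℤ := ((2 * n + 1).factorial : ℤ) with hFdef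
  have hstep : ((2 * n + 2).factorial : ℤ) = (2 * (n : ℤ) + 2) * F := fact_step n
  have hmem1 : F ∈ Z c := Or.inr (Or.inr ⟨n, by
    have : (2 * n).factorial ≤ (2 * n + 1).factorial := Nat.factorial_le (by omega)
    rw [hFdef]
    exact_mod_cast this, le_rfl⟩)
  have hmem2 : ((2 * n + 2).factorial : ℤ) ∈ Z c := Or.inr (Or.inr ⟨n + 1, by
    rw [show 2 * (n + 1) = 2 * n + 2 by ring], by
    have : (2 * n + 2).factorial ≤ (2 * (n + 1) + 1).factorial := Nat.factorial_le (by omega)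
    exact_mod_cast this⟩)
  have hb : -F < b ∧ b < F := by
    constructor <;> omega
  have hFpos : 0 < F := by omega
  by_contra hcon
  have hcase : 2 ≤ a ∨ (a = 1 ∧ 0 < b) ∨ (a = 1 ∧ b < 0) := by
    omega
  rcases hcase with h2 | ⟨h2, h3⟩ | ⟨h2, h3⟩
  · have hy := h ⟨F, hmem1, rfl⟩
    have haZ : (2 : ℤ) ≤ a := by exact_mod_cast h2
    have han : (a : ℤ) + 1 ≤ 2 * (n : ℤ) + 2 := by omega
    refine not_mem_Z hc (n := n) (by omega) ?_ ?_ hy
    · rw [← hFdef]
      nlinarith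
    · rw [hstep]
      nlinarith
  · have hy := h ⟨F, hmem1, rfl⟩
    subst h2
    refine not_mem_Z hc (n := n) (by omega) ?_ ?_ hy
    · rw [← hFdef]
      push_cast
      linarith
    · rw [hstep]
      push_cast
      nlinarith
  · have hy := h ⟨_, hmem2, rfl⟩
    subst h2
    refine not_mem_Z hc (n := n) (by omega) ?_ ?_ hy
    · rw [hstep, ← hFdef]
      push_cast
      nlinarith
    · push_cast
      linarith

/-- Any finite union of affine images of `Z c` misses arbitrarily long intervals. -/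
lemma long_gaps {c : ℤ} (hc : c ≤ 1) (J : List (ℕ × ℤ)) (hJ : Pos J) (L : ℕ) :
    ∃ x : ℤ, ∀ y : ℤ, x ≤ y → y < x + L → y ∈ {n : ℤ | c ≤ n} \ ZU c J := by
  set A : ℕ := (J.map (fun p => p.1)).sum with hA
  set B : ℕ := (J.map (fun p => p.2.natAbs)).sum with hB
  have hAle : ∀ p ∈ J, p.1 ≤ A := fun p hp =>
    List.single_le_sum (by intro x _; exact Nat.zero_le x) _ (List.mem_map.2 ⟨p, hp, rfl⟩)
  have hBle : ∀ p ∈ J, p.2.natAbs ≤ B := fun p hp =>
    List.single_le_sum (by intro x _; exact Nat.zero_le x) _ (List.mem_map.2 ⟨p, hp, rfl⟩)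
  set n : ℕ := A + 2 * B + L + 1 with hn
  have hF1 : 2 * n + 1 ≤ (2 * n + 1).factorial := Nat.self_le_factorial _
  have hF : ((2 * n + 1 : ℕ) : ℤ) ≤ ((2 * n + 1).factorial : ℤ) := by exact_mod_cast hF1
  set F : ℤ := ((2 * n + 1).factorial : ℤ) with hFdef
  have hstep : ((2 * n + 2).factorial : ℤ) = (2 * (n : ℤ) + 2) * F := fact_step n
  push_cast at hF
  have hFpos : 0 < F := by omega
  have hAF : 0 ≤ (A : ℤ) * F := mul_nonneg (by positivity) hFpos.le
  refine ⟨(A : ℤ) * F + B + 1, ?_⟩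
  intro y h1 h2
  refine ⟨?_, ?_⟩
  · show c ≤ y
    omega
  · rintro ⟨p, hp, z, hz, hyz⟩
    have ha := hJ p hp
    have hpA := hAle p hp
    have hpB := hBle p hp
    have haZ : (1 : ℤ) ≤ p.1 := by exact_mod_cast ha
    have hpAZ : (p.1 : ℤ) ≤ A := by exact_mod_cast hpA
    have hb1 : p.2 ≤ B := by omega
    have hb2 : -(B : ℤ) ≤ p.2 := by omega
    have e1 : (A : ℤ) * F < p.1 * z := by linarith
    have e2 : (p.1 : ℤ) * z < (A : ℤ) * F + 2 * B + 1 + L := by linarith
    have e3 : (p.1 : ℤ) * F ≤ A * F := mul_le_mul_of_nonneg_right hpAZ hFpos.le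
    have e4 : F < z := lt_of_mul_lt_mul_left (lt_of_le_of_lt e3 e1) (by omega)
    have hzpos : 0 < z := lt_trans hFpos e4
    have e5 : z ≤ p.1 * z := by
      have := mul_le_mul_of_nonneg_right haZ hzpos.le
      rwa [one_mul] at this
    have e6 : z < ((2 * n + 2).factorial : ℤ) := by
      rw [hstep]
      have : (A : ℤ) * F + 2 * B + 1 + L ≤ (2 * (n : ℤ) + 2) * F := by
        have h7 : (A : ℤ) + 1 ≤ 2 * (n : ℤ) + 2 := by omega
        have h8 : ((A : ℤ) + 1) * F ≤ (2 * (n : ℤ) + 2) * F :=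
          mul_le_mul_of_nonneg_right h7 hFpos.le
        have h9 : ((A : ℤ) + 1) * F = (A : ℤ) * F + F := by ring
        omega
      exact lt_of_le_of_lt e5 (lt_of_lt_of_le e2 this)
    exact not_mem_Z hc (n := n) (by omega) e4 e6 hz

lemma Z_sub {c : ℤ} (hc : c ≤ 1) : Z c ⊆ {n : ℤ | c ≤ n} := by
  rintro z (h | h | ⟨n, h, -⟩)
  · show c ≤ z
    omega
  · show c ≤ z
    omega
  · show c ≤ z
    have : (0 : ℤ) < ((2 * n).factorial : ℤ) := by
      have := Nat.factorial_pos (2 * n)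
      exact_mod_cast this
    omega

lemma mu_ground {c : ℤ} (hc : c ≤ 1) : mu c {n : ℤ | c ≤ n} = 1 := by
  apply le_antisymm (mu_le_one _ _)
  apply le_mu
  intro J hJ
  rw [nu_eq_one (long_gaps hc J (fun p hp => (hJ p hp).1))]

lemma mu_Z (c : ℤ) : mu c (Z c) = 0 := by
  apply le_antisymm _ (mu_nonneg _ _)
  have h1 : Adm c (Z c) [(1, 0)] := by
    intro p hp
    simp at hp
    subst hp
    refine ⟨Nat.one_pos, ?_⟩
    rintro y ⟨z, hz, rfl⟩
    simpa using hz
  have h2 := mu_le h1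
  have h3 : Z c \ ZU c [(1, 0)] = ∅ := by
    rw [Set.eq_empty_iff_forall_notMem]
    rintro y ⟨hy, hy2⟩
    apply hy2
    exact ⟨(1, 0), by simp, y, hy, by simp⟩
  rwa [h3, nu_empty] at h2

lemma mu_Z_diff {c : ℤ} (hc : c ≤ 1) : mu c (Z c \ {c}) = 1 := by
  apply le_antisymm (mu_le_one _ _)
  apply le_mu
  intro J hJ
  have hJnil : J = [] := by
    rw [List.eq_nil_iff_forall_not_mem]
    intro p hp
    obtain ⟨h1, h2⟩ := hJ p hp
    obtain ⟨e1, e2⟩ := rigid hc p.1 h1 p.2 (h2.trans Set.sdiff_subset)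
    have h3 := h2 ⟨c, c_mem c, rfl⟩
    apply h3.2
    rw [e1, e2]
    simp
  rw [hJnil]
  rw [nu_eq_one]
  intro L
  refine ⟨((2 * (L + 1)).factorial : ℤ), ?_⟩
  intro y h1 h2
  have hg : 2 * (L + 1) ≤ (2 * (L + 1)).factorial := Nat.self_le_factorial _
  have hg' : ((2 * (L + 1) : ℕ) : ℤ) ≤ ((2 * (L + 1)).factorial : ℤ) := by exact_mod_cast hg
  have hs : ((2 * (L + 1) + 1).factorial : ℤ) =
      (2 * ((L : ℤ) + 1) + 1) * ((2 * (L + 1)).factorial : ℤ) := by
    rw [Nat.factorial_succ]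
    push_cast
    ring
  push_cast at hg'
  refine ⟨⟨Or.inr (Or.inr ⟨L + 1, h1, ?_⟩), ?_⟩, ?_⟩
  · rw [hs]
    nlinarith
  · rw [Set.mem_singleton_iff]
    omega
  · rintro ⟨p, hp, -⟩
    simp at hp

lemma quasi {c : ℤ} (hc : c ≤ 1) : IsUpperQuasiDensity {n : ℤ | c ≤ n} (mu c) where
  total := mu_ground hc
  subadd := fun S S' _ _ => mu_union c S S'
  affine := fun S _ h k _ hk => mu_affine c S k hk h
  le_one := fun S _ => mu_le_one c S

lemma example_c {c : ℤ} (hc : c ≤ 1) :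
    IsUpperQuasiDensity {n : ℤ | c ≤ n} (mu c) ∧
      ∃ X : Set ℤ, X ⊆ {n : ℤ | c ≤ n} ∧ lowerDual {n : ℤ | c ≤ n} (mu c) X = 0 ∧
        lowerDual {n : ℤ | c ≤ n} (mu c) (affine 1 1 X) = 1 := by
  refine ⟨quasi hc, {x : ℤ | c ≤ x ∧ x + 1 ∉ Z c}, fun x hx => hx.1, ?_, ?_⟩
  · have h1 : affine ((1 : ℕ) : ℤ) 1 ({n : ℤ | c ≤ n} \ {x : ℤ | c ≤ x ∧ x + 1 ∉ Z c}) =
        Z c \ {c} := by
      ext y
      constructor
      · rintro ⟨x, ⟨hx1, hx2⟩, rfl⟩
        have hx1' : c ≤ x := hx1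
        have hx3 : x + 1 ∈ Z c := by
          by_contra h
          exact hx2 ⟨hx1, h⟩
        refine ⟨by simpa using hx3, ?_⟩
        rw [Set.mem_singleton_iff]
        push_cast
        omega
      · rintro ⟨hy1, hy2⟩
        rw [Set.mem_singleton_iff] at hy2
        have hy3 : c ≤ y := Z_sub hc hy1
        refine ⟨y - 1, ⟨?_, ?_⟩, by push_cast; ring⟩
        · show c ≤ y - 1
          omega
        · rintro ⟨-, h⟩
          apply h
          simpa using hy1
    have h2 := mu_affine c ({n : ℤ | c ≤ n} \ {x : ℤ | c ≤ x ∧ x + 1 ∉ Z c}) 1 Nat.one_pos 1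
    rw [h1, mu_Z_diff hc] at h2
    unfold lowerDual
    have h3 : mu c ({n : ℤ | c ≤ n} \ {x : ℤ | c ≤ x ∧ x + 1 ∉ Z c}) = 1 := by
      have : (1 : ℝ) / ((1 : ℕ) : ℝ) = 1 := by norm_num
      rw [this, one_mul] at h2
      exact h2.symm
    rw [h3]
    norm_num
  · have h1 : {n : ℤ | c ≤ n} \ affine 1 1 {x : ℤ | c ≤ x ∧ x + 1 ∉ Z c} = Z c := by
      ext y
      constructor
      · rintro ⟨hy1, hy2⟩
        have hy1' : c ≤ y := hy1
        by_contra hyZ
        have hne : y ≠ c := by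
          rintro rfl
          exact hyZ (c_mem y)
        apply hy2
        refine ⟨y - 1, ⟨by omega, ?_⟩, by ring⟩
        simpa using hyZ
      · intro hy
        refine ⟨Z_sub hc hy, ?_⟩
        rintro ⟨x, ⟨-, hx⟩, hxy⟩
        apply hx
        have : y = x + 1 := by rw [hxy]; ring
        rwa [← this]
    unfold lowerDual
    rw [h1, mu_Z]
    norm_num

/-- **Complete answer to Q2.**  On `ℤ` the lower dual of every upper quasi-density is translation
invariant; on `ℕ` and on `ℕ⁺` there is an upper quasi-density whose lower dual is not translation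
invariant: it takes the value `0` at some `X` and the value `1` at `X + 1`. -/
theorem result :
    (∀ μ : Set ℤ → ℝ, IsUpperQuasiDensity Set.univ μ → ∀ (X : Set ℤ) (h : ℕ),
      lowerDual Set.univ μ (affine 1 (h : ℤ) X) = lowerDual Set.univ μ X) ∧
    (∀ H : Set ℤ, (H = {n : ℤ | 0 ≤ n} ∨ H = {n : ℤ | 0 < n}) →
      ∃ μ : Set ℤ → ℝ, IsUpperQuasiDensity H μ ∧
        ∃ X : Set ℤ, X ⊆ H ∧ lowerDual H μ X = 0 ∧ lowerDual H μ (affine 1 1 X) = 1) := by
  constructor
  · intro μ hμ X h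
    rcases Nat.eq_zero_or_pos h with h0 | h0
    · subst h0
      have : affine 1 ((0 : ℕ) : ℤ) X = X := by
        ext y
        constructor
        · rintro ⟨x, hx, rfl⟩
          simpa using hx
        · intro hy
          exact ⟨y, hy, by simp⟩
      rw [this]
    · have h1 : Set.univ \ affine 1 (h : ℤ) X = affine ((1 : ℕ) : ℤ) (h : ℤ) (Set.univ \ X) := by
        ext y
        constructor
        · rintro ⟨-, hy⟩
          refine ⟨y - h, ⟨trivial, ?_⟩, by push_cast; ring⟩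
          intro hX
          exact hy ⟨y - h, hX, by ring⟩
        · rintro ⟨x, ⟨-, hx⟩, rfl⟩
          refine ⟨trivial, ?_⟩
          rintro ⟨x', hx', he⟩
          apply hx
          have : x = x' := by
            push_cast at he
            linarith
          rwa [this]
      unfold lowerDual
      rw [h1, hμ.affine (Set.univ \ X) (Set.subset_univ _) h 1 h0 Nat.one_pos]
      norm_num
  · rintro H (hH | hH)
    · subst hH
      exact ⟨mu 0, example_c (c := 0) (by norm_num)⟩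
    · have : H = {n : ℤ | 1 ≤ n} := by
        rw [hH]
        rfl
      rw [this]
      exact ⟨mu 1, example_c (c := 1) le_rfl⟩

end Pool.Agent.Results.MP_1da4e9_nt.LowerQuasiDensityInvariance
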